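import Mathlib

/-!
# Anticoncentration of subset counts: definitions and basic facts
-/

set_option autoImplicit false

namespace Pool.Agent.N897.Ind

open Finset Filter Topology

/-- The probability that the random subset `B_p` of the finite set `B`, which keeps each element
independently with probability `p`, has the property `E`. -/
noncomputable def prob {B : Type} [Fintype B] (p : ℝ) (E : Finset B → Prop) : ℝ := by
  classical exact
    ∑ S : Finset B, if E S then p ^ S.card * (1 - p) ^ (Fintype.card B - S.card) else 0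

/-- The number of members of the family `𝒜` which are contained in `S`. -/
noncomputable def cnt {B : Type} (𝒜 : Finset (Finset B)) (S : Finset B) : ℕ :=
  {A : Finset B | A ∈ 𝒜 ∧ A ⊆ S}.ncard

/-- `ind_*(ℓ, p)`: the supremum, over all finite sets `B` and all families `𝒜` of non-empty
subsets of `B`, of the probability that exactly `ℓ` members of `𝒜` are contained in `B_p`. -/
noncomputable def ind (ℓ : ℕ) (p : ℝ) : ℝ :=
  sSup {x : ℝ | ∃ (B : Type) (_ : Fintype B) (𝒜 : Finset (Finset B)),
    ∅ ∉ 𝒜 ∧ x = prob p fun S => cnt 𝒜 S = ℓ}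

/-- the weight of a subset -/
noncomputable def wt {B : Type} [Fintype B] (p : ℝ) (S : Finset B) : ℝ :=
  p ^ S.card * (1 - p) ^ (Fintype.card B - S.card)

/-- the indicator of a proposition -/
noncomputable def chi (P : Prop) : ℝ := by classical exact if P then 1 else 0

/-- the expectation -/
noncomputable def ex {B : Type} [Fintype B] (p : ℝ) (g : Finset B → ℝ) : ℝ :=
  ∑ S : Finset B, wt p S * g S

theorem chi_true {P : Prop} (h : P) : chi P = 1 := by simp [chi, h]

theorem chi_false {P : Prop} (h : ¬ P) : chi P = 0 := by simp [chi, h]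

theorem chi_nonneg (P : Prop) : 0 ≤ chi P := by
  by_cases h : P
  · rw [chi_true h]; norm_num
  · rw [chi_false h]

theorem chi_le_one (P : Prop) : chi P ≤ 1 := by
  by_cases h : P
  · rw [chi_true h]
  · rw [chi_false h]; norm_num

theorem chi_mono {P Q : Prop} (h : P → Q) : chi P ≤ chi Q := by
  by_cases hP : P
  · rw [chi_true hP, chi_true (h hP)]
  · rw [chi_false hP]; exact chi_nonneg Q

variable {B : Type} [Fintype B] {p : ℝ}

theorem prob_eq (p : ℝ) (E : Finset B → Prop) : prob p E = ex p fun S => chi (E S) := by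
  unfold prob ex
  refine Finset.sum_congr rfl fun S _ => ?_
  beta_reduce
  by_cases h : E S
  · rw [if_pos h, chi_true h, mul_one]; rfl
  · rw [if_neg h, chi_false h, mul_zero]

theorem wt_nonneg (h0 : 0 ≤ p) (h1 : p ≤ 1) (S : Finset B) : 0 ≤ wt p S :=
  mul_nonneg (pow_nonneg h0 _) (pow_nonneg (by linarith) _)

theorem ex_mono (h0 : 0 ≤ p) (h1 : p ≤ 1) {g g' : Finset B → ℝ} (h : ∀ S, g S ≤ g' S) :
    ex p g ≤ ex p g' :=
  Finset.sum_le_sum fun S _ => mul_le_mul_of_nonneg_left (h S) (wt_nonneg h0 h1 S)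

theorem ex_add (g g' : Finset B → ℝ) : ex p (fun S => g S + g' S) = ex p g + ex p g' := by
  unfold ex
  rw [← Finset.sum_add_distrib]
  exact Finset.sum_congr rfl fun S _ => mul_add _ _ _

theorem ex_sub (g g' : Finset B → ℝ) : ex p (fun S => g S - g' S) = ex p g - ex p g' := by
  unfold ex
  rw [← Finset.sum_sub_distrib]
  exact Finset.sum_congr rfl fun S _ => mul_sub _ _ _

theorem ex_const_mul (c : ℝ) (g : Finset B → ℝ) : ex p (fun S => c * g S) = c * ex p g := by
  unfold ex
  rw [Finset.mul_sum]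
  exact Finset.sum_congr rfl fun S _ => by ring

theorem ex_sum {ι : Type*} (s : Finset ι) (g : ι → Finset B → ℝ) :
    ex p (fun S => ∑ i ∈ s, g i S) = ∑ i ∈ s, ex p (g i) := by
  unfold ex
  rw [Finset.sum_comm]
  exact Finset.sum_congr rfl fun S _ => Finset.mul_sum _ _ _

theorem ex_nonneg (h0 : 0 ≤ p) (h1 : p ≤ 1) {g : Finset B → ℝ} (h : ∀ S, 0 ≤ g S) :
    0 ≤ ex p g :=
  Finset.sum_nonneg fun S _ => mul_nonneg (wt_nonneg h0 h1 S) (h S)

theorem ex_one : ex p (fun _ : Finset B => 1) = 1 := by
  unfold ex wt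
  simp only [mul_one]
  rw [Fintype.sum_pow_mul_eq_add_pow]
  simp

theorem prob_nonneg (h0 : 0 ≤ p) (h1 : p ≤ 1) (E : Finset B → Prop) : 0 ≤ prob p E := by
  rw [prob_eq]
  exact ex_nonneg h0 h1 fun _ => chi_nonneg _

theorem prob_le_one (h0 : 0 ≤ p) (h1 : p ≤ 1) (E : Finset B → Prop) : prob p E ≤ 1 := by
  rw [prob_eq, ← ex_one (B := B) (p := p)]
  exact ex_mono h0 h1 fun _ => chi_le_one _

theorem prob_mono (h0 : 0 ≤ p) (h1 : p ≤ 1) {E E' : Finset B → Prop} (h : ∀ S, E S → E' S) :
    prob p E ≤ prob p E' := by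
  rw [prob_eq, prob_eq]
  exact ex_mono h0 h1 fun S => chi_mono (h S)

theorem prob_add_not (E : Finset B → Prop) : prob p E + prob p (fun S => ¬ E S) = 1 := by
  rw [prob_eq, prob_eq, ← ex_add, ← ex_one (B := B) (p := p)]
  congr 1
  funext S
  by_cases h : E S
  · rw [chi_true h, chi_false (not_not.2 h), add_zero]
  · rw [chi_false h, chi_true h, zero_add]

/-- the probability of containing a given set -/
theorem ex_sup (U : Finset B) : ex p (fun S => chi (U ⊆ S)) = p ^ U.card := by
  classical
  have h := Finset.prod_add (fun _ : B => p) (fun b : B => if b ∈ U then 0 else 1 - p)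
    (Finset.univ)
  have h1 : ∏ i : B, (p + if i ∈ U then 0 else 1 - p) = p ^ U.card := by
    have : ∀ i : B, (p + if i ∈ U then 0 else 1 - p) = if i ∈ U then p else 1 := by
      intro i
      split_ifs <;> ring
    rw [Finset.prod_congr rfl fun i _ => this i, Finset.prod_ite]
    simp
  rw [h1] at h
  rw [h, Finset.powerset_univ]
  unfold ex wt
  refine Finset.sum_congr rfl fun S _ => ?_
  rw [Finset.prod_const, mul_assoc]
  congr 1
  beta_reduce
  by_cases hU : U ⊆ S
  · rw [chi_true hU, mul_one]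
    have : ∀ b ∈ Finset.univ \ S, (if b ∈ U then 0 else 1 - p) = 1 - p := by
      intro b hb
      rw [if_neg]
      intro hbU
      exact (Finset.mem_sdiff.1 hb).2 (hU hbU)
    rw [Finset.prod_congr rfl this, Finset.prod_const, Finset.card_sdiff_of_subset
      (Finset.subset_univ S), Finset.card_univ]
  · rw [chi_false hU, mul_zero]
    obtain ⟨b, hb, hbS⟩ := Finset.not_subset.1 hU
    rw [eq_comm]
    apply Finset.prod_eq_zero (i := b)
    · simp [hbS]
    · simp [hb]

/-- the binomial probabilities -/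
noncomputable def bin (p : ℝ) (n k : ℕ) : ℝ := n.choose k * p ^ k * (1 - p) ^ (n - k)

theorem bin_nonneg (h0 : 0 ≤ p) (h1 : p ≤ 1) (n k : ℕ) : 0 ≤ bin p n k :=
  mul_nonneg (mul_nonneg (Nat.cast_nonneg _) (pow_nonneg h0 _)) (pow_nonneg (by linarith) _)

theorem ex_card (g : ℕ → ℝ) : ex p (fun S : Finset B => g S.card) =
    ∑ k ∈ Finset.range (Fintype.card B + 1), bin p (Fintype.card B) k * g k := by
  unfold ex wt
  have := Finset.sum_powerset_apply_card (x := (Finset.univ : Finset B))
    (fun k => p ^ k * (1 - p) ^ (Fintype.card B - k) * g k)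
  rw [Finset.powerset_univ, Finset.card_univ] at this
  beta_reduce
  rw [this]
  refine Finset.sum_congr rfl fun k _ => ?_
  rw [nsmul_eq_mul, bin]
  ring

/-- ratio of successive binomial probabilities -/
theorem bin_succ (n k : ℕ) (hk : k ≤ n) :
    bin p n k * ((n - k : ℕ) : ℝ) * p = (k + 1) * (1 - p) * bin p n (k + 1) := by
  unfold bin
  rcases hk.lt_or_eq with h | rfl
  · have h1 : n.choose (k + 1) * (k + 1) = n.choose k * (n - k) := Nat.choose_succ_right_eq n k
    have h2 : ((n.choose (k + 1) : ℝ)) * (k + 1) = n.choose k * ((n - k : ℕ) : ℝ) := by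
      exact_mod_cast h1
    have h3 : n - k = n - (k + 1) + 1 := by omega
    calc (n.choose k : ℝ) * p ^ k * (1 - p) ^ (n - k) * ((n - k : ℕ) : ℝ) * p
        = (n.choose k * ((n - k : ℕ) : ℝ)) * (p ^ k * p) * (1 - p) ^ (n - k) := by ring
      _ = (n.choose (k + 1) * (k + 1)) * (p ^ k * p) * (1 - p) ^ (n - (k + 1) + 1) := by
          rw [← h2, ← h3]
      _ = (k + 1) * (1 - p) * (n.choose (k + 1) * p ^ (k + 1) * (1 - p) ^ (n - (k + 1))) := by
          ring
  · simp

end Pool.Agent.N897.Ind
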