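import Pool.Agent.N897.Ind.Basic

/-!
# Independent copies of a family
-/

set_option autoImplicit false
set_option linter.unusedSectionVars false

namespace Pool.Agent.N897.Ind

open Finset Filter Topology

variable {B B' : Type} [Fintype B] [Fintype B'] {p : ℝ}

theorem wt_disjSum (S : Finset B) (T : Finset B') :
    wt p (S.disjSum T) = wt p S * wt p T := by
  unfold wt
  have h1 := Finset.card_le_univ S
  have h2 := Finset.card_le_univ T
  rw [Finset.card_disjSum, Fintype.card_sum,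
    show Fintype.card B + Fintype.card B' - (S.card + T.card) =
      (Fintype.card B - S.card) + (Fintype.card B' - T.card) by omega, pow_add, pow_add]
  ring

theorem ex_sumType (g : Finset B → ℝ) (g' : Finset B' → ℝ) :
    ex (B := B ⊕ B') p (fun S => g S.toLeft * g' S.toRight) = ex p g * ex p g' := by
  unfold ex
  rw [← Equiv.sum_comp (Finset.sumEquiv (α := B) (β := B')).symm.toEquiv, Finset.sum_mul_sum,
    Fintype.sum_prod_type]
  refine Finset.sum_congr rfl fun S _ => Finset.sum_congr rfl fun T _ => ?_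
  have : (Finset.sumEquiv (α := B) (β := B')).symm.toEquiv (S, T) = S.disjSum T := rfl
  beta_reduce
  rw [this, wt_disjSum, Finset.toLeft_disjSum, Finset.toRight_disjSum]
  ring

/-- the disjoint union of two families -/
noncomputable def join (𝒜 : Finset (Finset B)) (𝒜' : Finset (Finset B')) :
    Finset (Finset (B ⊕ B')) := by
  classical exact 𝒜.image (fun A => A.map Function.Embedding.inl) ∪
    𝒜'.image (fun A => A.map Function.Embedding.inr)

theorem empty_notMem_join {𝒜 : Finset (Finset B)} {𝒜' : Finset (Finset B')} (h : ∅ ∉ 𝒜)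
    (h' : ∅ ∉ 𝒜') : ∅ ∉ join 𝒜 𝒜' := by
  classical
  unfold join
  rw [Finset.mem_union, Finset.mem_image, Finset.mem_image]
  rintro (⟨A, hA, hA0⟩ | ⟨A, hA, hA0⟩)
  · rw [Finset.map_eq_empty] at hA0
    subst hA0
    exact h hA
  · rw [Finset.map_eq_empty] at hA0
    subst hA0
    exact h' hA

theorem cnt_join {𝒜 : Finset (Finset B)} {𝒜' : Finset (Finset B')} (h : ∅ ∉ 𝒜)
    (S : Finset (B ⊕ B')) : cnt (join 𝒜 𝒜') S = cnt 𝒜 S.toLeft + cnt 𝒜' S.toRight := by
  classical
  unfold cnt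
  have h1 : {A : Finset (B ⊕ B') | A ∈ join 𝒜 𝒜' ∧ A ⊆ S} =
      (fun A : Finset B => A.map (Function.Embedding.inl : B ↪ B ⊕ B')) ''
        {A : Finset B | A ∈ 𝒜 ∧ A ⊆ S.toLeft} ∪
      (fun A : Finset B' => A.map (Function.Embedding.inr : B' ↪ B ⊕ B')) ''
        {A : Finset B' | A ∈ 𝒜' ∧ A ⊆ S.toRight} := by
    ext A
    unfold join
    simp only [Finset.mem_union, Finset.mem_image, Set.mem_ofPred_eq, Set.mem_union,
      Set.mem_image]
    constructor
    · rintro ⟨⟨C, hC, rfl⟩ | ⟨C, hC, rfl⟩, hS⟩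
      · exact Or.inl ⟨C, ⟨hC, Finset.map_inl_subset_iff_subset_toLeft.1 hS⟩, rfl⟩
      · exact Or.inr ⟨C, ⟨hC, Finset.map_inr_subset_iff_subset_toRight.1 hS⟩, rfl⟩
    · rintro (⟨C, ⟨hC, hS⟩, rfl⟩ | ⟨C, ⟨hC, hS⟩, rfl⟩)
      · exact ⟨Or.inl ⟨C, hC, rfl⟩, Finset.map_inl_subset_iff_subset_toLeft.2 hS⟩
      · exact ⟨Or.inr ⟨C, hC, rfl⟩, Finset.map_inr_subset_iff_subset_toRight.2 hS⟩
  rw [h1, Set.ncard_union_eq _ (Set.toFinite _) (Set.toFinite _),
    Set.ncard_image_of_injective _ (Finset.map_injective _),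
    Set.ncard_image_of_injective _ (Finset.map_injective _)]
  rw [Set.disjoint_left]
  rintro _ ⟨C, ⟨hC, _⟩, rfl⟩ ⟨D, _, hD⟩
  rcases C.eq_empty_or_nonempty with rfl | ⟨x, hx⟩
  · exact h hC
  · have : (Function.Embedding.inl x : B ⊕ B') ∈ D.map Function.Embedding.inr := by
      have h2 : (Function.Embedding.inl x : B ⊕ B') ∈
          C.map (Function.Embedding.inl : B ↪ B ⊕ B') := Finset.mem_map_of_mem _ hx
      have hD' : D.map (Function.Embedding.inr : B' ↪ B ⊕ B') =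
        C.map (Function.Embedding.inl : B ↪ B ⊕ B') := hD
      rw [← hD'] at h2
      exact h2
    simp at this

theorem join_zero {𝒜 : Finset (Finset B)} {𝒜' : Finset (Finset B')} (h : ∅ ∉ 𝒜) :
    prob p (fun S => cnt (join 𝒜 𝒜') S = 0) =
      prob p (fun S => cnt 𝒜 S = 0) * prob p (fun S => cnt 𝒜' S = 0) := by
  rw [prob_eq, prob_eq, prob_eq, ← ex_sumType]
  congr 1
  funext S
  rw [cnt_join h]
  by_cases h1 : cnt 𝒜 S.toLeft = 0
  · by_cases h2 : cnt 𝒜' S.toRight = 0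
    · rw [chi_true (by omega), chi_true h1, chi_true h2, mul_one]
    · rw [chi_false (by omega), chi_true h1, chi_false h2, mul_zero]
  · rw [chi_false (by omega), chi_false h1, zero_mul]

theorem join_le (h0 : 0 ≤ p) (h1 : p ≤ 1) {𝒜 : Finset (Finset B)} {𝒜' : Finset (Finset B')}
    (h : ∅ ∉ 𝒜) {ℓ : ℕ} (hℓ : 1 ≤ ℓ) :
    prob p (fun S => cnt 𝒜 S = ℓ) * prob p (fun S => cnt 𝒜' S = 0) +
      prob p (fun S => cnt 𝒜 S = 0) * prob p (fun S => cnt 𝒜' S = ℓ) ≤
    prob p (fun S => cnt (join 𝒜 𝒜') S = ℓ) := by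
  rw [prob_eq, prob_eq, prob_eq, prob_eq, prob_eq, ← ex_sumType, ← ex_sumType, ← ex_add]
  refine ex_mono h0 h1 fun S => ?_
  rw [cnt_join h]
  by_cases h2 : cnt 𝒜 S.toLeft = ℓ
  · by_cases h3 : cnt 𝒜' S.toRight = 0
    · rw [chi_true h2, chi_true h3, chi_false (by omega : ¬ cnt 𝒜 S.toLeft = 0),
        chi_true (by omega : cnt 𝒜 S.toLeft + cnt 𝒜' S.toRight = ℓ)]
      norm_num
    · rw [chi_false h3, chi_false (by omega : ¬ cnt 𝒜 S.toLeft = 0)]
      simpa using chi_nonneg _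
  · by_cases h4 : cnt 𝒜 S.toLeft = 0
    · by_cases h5 : cnt 𝒜' S.toRight = ℓ
      · rw [chi_false h2, chi_true h4, chi_true h5,
          chi_true (by omega : cnt 𝒜 S.toLeft + cnt 𝒜' S.toRight = ℓ)]
        norm_num
      · rw [chi_false h2, chi_false h5]
        simpa using chi_nonneg _
    · rw [chi_false h2, chi_false h4]
      simpa using chi_nonneg _

/-- `K` independent copies -/
theorem copies (h0 : 0 ≤ p) (h1 : p ≤ 1) (𝒜 : Finset (Finset B)) (h : ∅ ∉ 𝒜) {ℓ : ℕ}
    (hℓ : 1 ≤ ℓ) (K : ℕ) : ∃ (C : Type) (_ : Fintype C) (𝒞 : Finset (Finset C)), ∅ ∉ 𝒞 ∧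
      prob p (fun S => cnt 𝒞 S = 0) = prob p (fun S => cnt 𝒜 S = 0) ^ K ∧
      K * prob p (fun S => cnt 𝒜 S = ℓ) * prob p (fun S => cnt 𝒜 S = 0) ^ (K - 1) ≤
        prob p (fun S => cnt 𝒞 S = ℓ) := by
  induction K with
  | zero =>
    refine ⟨Empty, inferInstance, ∅, by simp, ?_, ?_⟩
    · rw [pow_zero, prob_eq, ← ex_one (B := Empty) (p := p)]
      congr 1
      funext S
      apply chi_true
      unfold cnt
      simp
    · simpa using prob_nonneg h0 h1 _
  | succ K ih =>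
    obtain ⟨C, _, 𝒞, hC, hC0, hCl⟩ := ih
    refine ⟨C ⊕ B, inferInstance, join 𝒞 𝒜, empty_notMem_join hC h, ?_, ?_⟩
    · rw [join_zero hC, hC0, pow_succ]
    · refine le_trans ?_ (join_le h0 h1 hC hℓ)
      rw [hC0]
      have hx := prob_nonneg h0 h1 (fun S => cnt 𝒜 S = ℓ)
      have hy := prob_nonneg h0 h1 (fun S => cnt 𝒜 S = 0)
      set x := prob p fun S => cnt 𝒜 S = ℓ
      set y := prob p fun S => cnt 𝒜 S = 0
      have h3 := mul_le_mul_of_nonneg_right hCl hy
      rcases Nat.eq_zero_or_pos K with rfl | hK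
      · simp at h3 ⊢
        linarith
      · have h4 : y ^ (K - 1) * y = y ^ K := by
          rw [← pow_succ]
          congr 1
          omega
        have h5 : (K : ℝ) * x * y ^ (K - 1) * y = K * x * y ^ K := by
          rw [mul_assoc, h4]
        rw [h5] at h3
        rw [show K + 1 - 1 = K by omega]
        push_cast
        linarith

end Pool.Agent.N897.Ind
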