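import Pool.Agent.N897.Ind.Rand

/-!
# One copy: conditionally on the presence of a set, the count is `ℓ` with large probability
-/

set_option autoImplicit false
set_option linter.unusedSectionVars false

namespace Pool.Agent.N897.Ind

open Finset Filter Topology

variable {p : ℝ}

theorem bin_eq_zero {N k : ℕ} (h : N < k) : bin p N k = 0 := by
  unfold bin
  rw [Nat.choose_eq_zero_of_lt h]
  simp

/-- the expected number of sets of size `t` in the random set, when its size is `k`, up to a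
factor -/
noncomputable def rr (p : ℝ) (N t k : ℕ) : ℝ := bin p N k * k.choose t

theorem rr_nonneg (h0 : 0 ≤ p) (h1 : p ≤ 1) (N t k : ℕ) : 0 ≤ rr p N t k :=
  mul_nonneg (bin_nonneg h0 h1 N k) (Nat.cast_nonneg _)

theorem rr_step (h0 : 0 ≤ p) (h1 : p ≤ 1) {N t s k m : ℕ} (hk : t ≤ k) (hks : k < t + s)
    (hN : t + s ≤ N) (hM : (m : ℝ) ≤ ((N - (t + s) : ℕ) : ℝ) * p) :
    rr p N t k * m ≤ s * rr p N t (k + 1) := by
  have h2 : (m : ℝ) ≤ ((N - k : ℕ) : ℝ) * p := by
    refine hM.trans (mul_le_mul_of_nonneg_right ?_ h0)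
    exact_mod_cast (by omega : N - (t + s) ≤ N - k)
  have h3 := bin_succ (p := p) N k (by omega)
  have h4 : ((k.choose t : ℝ)) * (k + 1) = (k + 1).choose t * ((k + 1 - t : ℕ) : ℝ) := by
    exact_mod_cast Nat.choose_mul_succ_eq k t
  have h5 : ((k + 1 - t : ℕ) : ℝ) ≤ s := by exact_mod_cast (by omega : k + 1 - t ≤ s)
  have h6 := rr_nonneg h0 h1 N t (k + 1)
  calc rr p N t k * m ≤ rr p N t k * (((N - k : ℕ) : ℝ) * p) :=
        mul_le_mul_of_nonneg_left h2 (rr_nonneg h0 h1 N t k)
    _ = (bin p N k * ((N - k : ℕ) : ℝ) * p) * k.choose t := by unfold rr; ring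
    _ = ((k + 1) * (1 - p) * bin p N (k + 1)) * k.choose t := by rw [h3]
    _ = (1 - p) * bin p N (k + 1) * (k.choose t * (k + 1)) := by ring
    _ = (1 - p) * bin p N (k + 1) * ((k + 1).choose t * ((k + 1 - t : ℕ) : ℝ)) := by rw [h4]
    _ = (1 - p) * ((k + 1 - t : ℕ) : ℝ) * rr p N t (k + 1) := by unfold rr; ring
    _ ≤ s * rr p N t (k + 1) := by
        apply mul_le_mul_of_nonneg_right _ h6
        nlinarith [Nat.cast_nonneg (α := ℝ) (k + 1 - t)]

theorem rr_sum (h0 : 0 ≤ p) (h1 : p ≤ 1) {N t s m : ℕ}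
    (hN : t + s ≤ N) (hM : (m : ℝ) ≤ ((N - (t + s) : ℕ) : ℝ) * p) (hm : s ≤ m) (hm0 : 0 < m) :
    ∑ k ∈ Finset.range (t + s), rr p N t k ≤ (s : ℝ) ^ 2 / m * rr p N t (t + s) := by
  have hm0' : (0 : ℝ) < m := by exact_mod_cast hm0
  have hm' : (s : ℝ) ≤ m := by exact_mod_cast hm
  have h2 : ∀ i, i ≤ s → rr p N t (t + s - i) ≤ rr p N t (t + s) := by
    intro i
    induction i with
    | zero => intro _; simp
    | succ i ih =>
      intro hi
      have h3 := ih (by omega)
      have h4 := rr_step h0 h1 (N := N) (t := t) (s := s) (k := t + s - (i + 1)) (m := m)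
        (by omega) (by omega) hN hM
      rw [show t + s - (i + 1) + 1 = t + s - i by omega] at h4
      have h5 := rr_nonneg h0 h1 N t (t + s - i)
      have h6 : rr p N t (t + s - (i + 1)) * m ≤ m * rr p N t (t + s - i) :=
        h4.trans (mul_le_mul_of_nonneg_right hm' h5)
      have h7 : rr p N t (t + s - (i + 1)) ≤ rr p N t (t + s - i) := by
        rw [mul_comm] at h6
        exact le_of_mul_le_mul_left h6 hm0'
      exact h7.trans h3
  rw [Finset.sum_range_add]
  have h3 : ∑ k ∈ Finset.range t, rr p N t k = 0 := by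
    apply Finset.sum_eq_zero
    intro k hk
    rw [Finset.mem_range] at hk
    unfold rr
    rw [Nat.choose_eq_zero_of_lt hk]
    simp
  rw [h3, zero_add]
  calc ∑ i ∈ Finset.range s, rr p N t (t + i)
      ≤ ∑ i ∈ Finset.range s, (s : ℝ) / m * rr p N t (t + s) := by
        refine Finset.sum_le_sum fun i hi => ?_
        rw [Finset.mem_range] at hi
        have h4 := rr_step h0 h1 (N := N) (t := t) (s := s) (k := t + i) (m := m)
          (by omega) (by omega) hN hM
        have h5 := h2 (s - (i + 1)) (by omega)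
        rw [show t + s - (s - (i + 1)) = t + i + 1 by omega] at h5
        rw [div_mul_eq_mul_div, le_div_iff₀ hm0']
        exact h4.trans (mul_le_mul_of_nonneg_left h5 (Nat.cast_nonneg _))
    _ = (s : ℝ) ^ 2 / m * rr p N t (t + s) := by
        rw [Finset.sum_const, Finset.card_range, nsmul_eq_mul]
        ring

theorem tail_le (h0 : 0 ≤ p) (h1 : p ≤ 1) {N n : ℕ} {ρ : ℝ} (hρ0 : 0 ≤ ρ) (hρ : ρ ≤ 1 / 2)
    (h : ∀ k, n ≤ k → bin p N (k + 1) ≤ ρ * bin p N k) (J : ℕ) :
    ∑ j ∈ Finset.range J, bin p N (n + 1 + j) ≤ 2 * ρ * bin p N n := by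
  have hb := bin_nonneg h0 h1 N n
  have h2 : ∀ j, bin p N (n + 1 + j) ≤ ρ * bin p N n * (1 / 2) ^ j := by
    intro j
    induction j with
    | zero => simpa using h n le_rfl
    | succ j ih =>
      have h3 := h (n + 1 + j) (by omega)
      have h4 := bin_nonneg h0 h1 N (n + 1 + j)
      calc bin p N (n + 1 + (j + 1)) ≤ ρ * bin p N (n + 1 + j) := h3
        _ ≤ 1 / 2 * (ρ * bin p N n * (1 / 2) ^ j) :=
            mul_le_mul hρ ih h4 (by norm_num)
        _ = ρ * bin p N n * (1 / 2) ^ (j + 1) := by ring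
  calc ∑ j ∈ Finset.range J, bin p N (n + 1 + j)
      ≤ ∑ j ∈ Finset.range J, ρ * bin p N n * (1 / 2) ^ j :=
        Finset.sum_le_sum fun j _ => h2 j
    _ = ρ * bin p N n * ∑ j ∈ Finset.range J, (1 / 2 : ℝ) ^ j := by rw [Finset.mul_sum]
    _ ≤ ρ * bin p N n * 2 :=
        mul_le_mul_of_nonneg_left (sum_geometric_two_le J) (mul_nonneg hρ0 hb)
    _ = 2 * ρ * bin p N n := by ring

/-- the probability that the count is positive is small -/
theorem prob_pos_le {B : Type} [Fintype B] (h0 : 0 ≤ p) (h1 : p ≤ 1) {t : ℕ} (ht : 1 ≤ t)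
    (𝒯 : Finset (Finset B)) :
    prob p (fun S => cnt (fam t 𝒯) S ≠ 0) ≤ Fintype.card B * p / t := by
  have ht' : (0 : ℝ) < t := by exact_mod_cast (by omega : 0 < t)
  rw [le_div_iff₀ ht', prob_eq, ← exp_card, mul_comm, ← ex_const_mul]
  refine ex_mono h0 h1 fun S => ?_
  by_cases h : cnt (fam t 𝒯) S ≠ 0
  · rw [chi_true h, mul_one]
    have h2 := jn_pos_of_cnt h
    have h3 : t ≤ S.card := by
      by_contra hc
      unfold jn at h2
      rw [Finset.powersetCard_eq_empty.2 (by omega)] at h2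
      simp at h2
    exact_mod_cast h3
  · rw [chi_false h, mul_zero]
    exact Nat.cast_nonneg _

theorem single (s m t : ℕ) (δ : ℝ) (hδ : 0 < δ) (hδ1 : δ < 1) (hm : s ≤ m) (hm0 : 0 < m)
    (hm2 : (s : ℝ) ^ 2 ≤ δ * m) (ht : 1 ≤ t) (ht2 : 4 * ((m : ℝ) + 1) ≤ δ ^ 2 * t)
    (hp0 : 0 < p) (hp : p * (t + s + 1) ≤ 1) :
    ∃ (B : Type) (_ : Fintype B) (𝒜 : Finset (Finset B)), ∅ ∉ 𝒜 ∧
      prob p (fun S => cnt 𝒜 S ≠ 0) ≤ δ ∧
      (1 - δ) / (1 + 3 * δ) * prob p (fun S => cnt 𝒜 S ≠ 0) <
        prob p (fun S => cnt 𝒜 S = 1 + s) := by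
  classical
  have ht' : (1 : ℝ) ≤ t := by exact_mod_cast ht
  have hs' : (0 : ℝ) ≤ s := Nat.cast_nonneg s
  have hm0' : (0 : ℝ) < m := by exact_mod_cast hm0
  have hp12 : p ≤ 1 / 2 := by nlinarith
  have hp1 : p ≤ 1 := by linarith
  set M : ℕ := ⌈(m : ℝ) / p⌉₊ with hMdef
  have hM1 : (m : ℝ) ≤ M * p := by
    have := Nat.le_ceil ((m : ℝ) / p)
    rw [← hMdef, div_le_iff₀ hp0] at this
    exact this
  have hM2 : (M : ℝ) * p ≤ m + p := by
    have := Nat.ceil_lt_add_one (a := (m : ℝ) / p) (by positivity)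
    rw [← hMdef] at this
    have h2 : (M : ℝ) * p ≤ ((m : ℝ) / p + 1) * p := mul_le_mul_of_nonneg_right this.le hp0.le
    have h3 : ((m : ℝ) / p + 1) * p = m + p := by field_simp
    linarith
  set n : ℕ := t + s with hn
  set N : ℕ := n + M with hNdef
  have hcard : Fintype.card (Fin N) = N := Fintype.card_fin N
  -- the ratios
  set ρ : ℝ := 2 * (m + 1) / (n + 1) with hρdef
  have hn1 : (0 : ℝ) < (n : ℝ) + 1 := by positivity
  have hnt : (t : ℝ) ≤ n := by exact_mod_cast (by omega : t ≤ n)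
  have hρ0 : 0 ≤ ρ := by positivity
  have hρ2 : 2 * ρ ≤ δ * δ := by
    rw [hρdef, ← mul_div_assoc, div_le_iff₀ hn1]
    nlinarith
  have hρ12 : ρ ≤ 1 / 2 := by nlinarith
  have hratio : ∀ k, n ≤ k → bin p N (k + 1) ≤ ρ * bin p N k := by
    intro k hk
    rcases Nat.lt_or_ge N (k + 1) with h | h
    · rw [bin_eq_zero h]
      exact mul_nonneg hρ0 (bin_nonneg hp0.le hp1 _ _)
    · have h2 := bin_succ (p := p) N k (by omega)
      have h3 : ((N - k : ℕ) : ℝ) * p ≤ m + 1 := by
        have h4 : ((N - k : ℕ) : ℝ) ≤ M := by exact_mod_cast (by omega : N - k ≤ M)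
        have := mul_le_mul_of_nonneg_right h4 hp0.le
        linarith
      have hb := bin_nonneg hp0.le hp1 N k
      have hb' := bin_nonneg hp0.le hp1 N (k + 1)
      have h5 : (n : ℝ) + 1 ≤ k + 1 := by
        have : (n : ℝ) ≤ k := by exact_mod_cast hk
        linarith
      have h6 : ((n : ℝ) + 1) / 2 * bin p N (k + 1) ≤ (m + 1) * bin p N k := by
        calc ((n : ℝ) + 1) / 2 * bin p N (k + 1)
            ≤ (k + 1) * (1 - p) * bin p N (k + 1) := by
              apply mul_le_mul_of_nonneg_right _ hb'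
              nlinarith
          _ = bin p N k * (((N - k : ℕ) : ℝ) * p) := by rw [← h2]; ring
          _ ≤ bin p N k * (m + 1) := mul_le_mul_of_nonneg_left h3 hb
          _ = (m + 1) * bin p N k := by ring
      rw [hρdef, div_mul_eq_mul_div, le_div_iff₀ hn1]
      linarith
  -- the density
  have hc1 : (1 : ℝ) ≤ n.choose t := by
    exact_mod_cast Nat.choose_pos (by omega : t ≤ n)
  set θ : ℝ := δ / n.choose t with hθdef
  have hθ0 : 0 ≤ θ := by positivity
  have hθ1 : θ ≤ 1 := by
    rw [hθdef, div_le_one (by linarith)]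
    linarith
  have hθa : (n.choose t : ℝ) * θ = δ := by
    rw [hθdef]
    field_simp
  -- lower bound
  have hlow : bin p N n * (δ - δ ^ 2) ≤ ex θ (fun 𝒯 : Finset (Finset (Fin N)) =>
      prob p fun S => cnt (fam t 𝒯) S = 1 + s) := by
    simp only [prob_eq]
    rw [ex_comm]
    have h2 := ex_card (B := Fin N) (p := p) (fun k => if k = n then δ - δ ^ 2 else 0)
    rw [hcard] at h2
    have h3 : ∑ k ∈ Finset.range (N + 1), bin p N k * (if k = n then δ - δ ^ 2 else 0) =
        bin p N n * (δ - δ ^ 2) := by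
      rw [Finset.sum_eq_single n]
      · rw [if_pos rfl]
      · intro k _ hk
        rw [if_neg hk, mul_zero]
      · intro h
        exact absurd (Finset.mem_range.2 (by omega)) h
    rw [← h3, ← h2]
    refine ex_mono hp0.le hp1 fun S => ?_
    split_ifs with hS
    · have h4 := ex_jn_one hθ0 hθ1 t S
      rw [hS, hθa] at h4
      refine h4.trans (ex_mono hθ0 hθ1 fun 𝒯 => chi_mono fun h => ?_)
      exact cnt_fam_eq hS h
    · exact ex_nonneg hθ0 hθ1 fun _ => chi_nonneg _
  -- upper bound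
  have hupp : ex θ (fun 𝒯 : Finset (Finset (Fin N)) =>
      prob p fun S => cnt (fam t 𝒯) S ≠ 0) ≤ bin p N n * (δ * (1 + 2 * δ)) := by
    simp only [prob_eq]
    rw [ex_comm]
    have h2 := ex_card (B := Fin N) (p := p)
      (fun k => if k ≤ n then (k.choose t : ℝ) * θ else 1)
    rw [hcard] at h2
    calc ex p (fun S => ex θ fun 𝒯 : Finset (Finset (Fin N)) => chi (cnt (fam t 𝒯) S ≠ 0))
        ≤ ex p (fun S : Finset (Fin N) =>
            if S.card ≤ n then (S.card.choose t : ℝ) * θ else 1) := by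
          refine ex_mono hp0.le hp1 fun S => ?_
          split_ifs with hS
          · refine le_trans ?_ (ex_jn_pos hθ0 hθ1 t S)
            exact ex_mono hθ0 hθ1 fun 𝒯 => chi_mono fun h => jn_pos_of_cnt h
          · rw [← ex_one (B := Finset (Fin N)) (p := θ)]
            exact ex_mono hθ0 hθ1 fun 𝒯 => chi_le_one _
      _ = ∑ k ∈ Finset.range (N + 1), bin p N k *
            (if k ≤ n then (k.choose t : ℝ) * θ else 1) := h2
      _ = ∑ k ∈ Finset.range (n + 1), bin p N k *
            (if k ≤ n then (k.choose t : ℝ) * θ else 1) +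
          ∑ j ∈ Finset.range M, bin p N (n + 1 + j) *
            (if n + 1 + j ≤ n then ((n + 1 + j).choose t : ℝ) * θ else 1) := by
          rw [show N + 1 = (n + 1) + M by omega, Finset.sum_range_add]
      _ = θ * (∑ k ∈ Finset.range n, rr p N t k + rr p N t n) +
          ∑ j ∈ Finset.range M, bin p N (n + 1 + j) := by
          congr 1
          · rw [← Finset.sum_range_succ, Finset.mul_sum]
            refine Finset.sum_congr rfl fun k hk => ?_
            rw [Finset.mem_range] at hk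
            rw [if_pos (by omega)]
            unfold rr
            ring
          · refine Finset.sum_congr rfl fun j _ => ?_
            rw [if_neg (by omega), mul_one]
      _ ≤ θ * ((s : ℝ) ^ 2 / m * rr p N t n + rr p N t n) + 2 * ρ * bin p N n := by
          apply add_le_add
          · apply mul_le_mul_of_nonneg_left _ hθ0
            have h3 : (m : ℝ) ≤ ((N - (t + s) : ℕ) : ℝ) * p := by
              rw [show N - (t + s) = M by omega]
              exact hM1
            have := rr_sum hp0.le hp1 (N := N) (t := t) (s := s) (m := m) (by omega) h3 hm hm0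
            rw [← hn] at this
            linarith
          · exact tail_le hp0.le hp1 hρ0 hρ12 hratio M
      _ = bin p N n * (δ * (1 + (s : ℝ) ^ 2 / m) + 2 * ρ) := by
          unfold rr
          rw [← hθa]
          ring
      _ ≤ bin p N n * (δ * (1 + 2 * δ)) := by
          apply mul_le_mul_of_nonneg_left _ (bin_nonneg hp0.le hp1 N n)
          have h4 : (s : ℝ) ^ 2 / m ≤ δ := by
            rw [div_le_iff₀ hm0']
            exact hm2
          nlinarith
  -- the existence
  set R : ℝ := (1 - δ) / (1 + 3 * δ) with hRdef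
  have hR0 : 0 < R := by
    rw [hRdef]
    apply div_pos <;> linarith
  have hbpos : 0 < bin p N n := by
    unfold bin
    have h2 : (0 : ℝ) < N.choose n := by exact_mod_cast Nat.choose_pos (by omega : n ≤ N)
    have h3 : 0 < 1 - p := by linarith
    positivity
  have hkey : 0 < ex θ (fun 𝒯 : Finset (Finset (Fin N)) =>
      (prob p fun S => cnt (fam t 𝒯) S = 1 + s) -
        R * (prob p fun S => cnt (fam t 𝒯) S ≠ 0)) := by
    rw [ex_sub, ex_const_mul]
    have h2 : R * (1 + 2 * δ) < 1 - δ := by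
      rw [hRdef, div_mul_eq_mul_div, div_lt_iff₀ (by linarith)]
      nlinarith
    have h3 : R * ex θ (fun 𝒯 : Finset (Finset (Fin N)) =>
        prob p fun S => cnt (fam t 𝒯) S ≠ 0) ≤ R * (bin p N n * (δ * (1 + 2 * δ))) :=
      mul_le_mul_of_nonneg_left hupp hR0.le
    have h4 : R * (bin p N n * (δ * (1 + 2 * δ))) < bin p N n * (δ - δ ^ 2) := by
      have h5 : R * (bin p N n * (δ * (1 + 2 * δ))) = (bin p N n * δ) * (R * (1 + 2 * δ)) := by
        ring
      have h6 : bin p N n * (δ - δ ^ 2) = (bin p N n * δ) * (1 - δ) := by ring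
      rw [h5, h6]
      exact mul_lt_mul_of_pos_left h2 (mul_pos hbpos hδ)
    linarith
  have hex : ∃ 𝒯 : Finset (Finset (Fin N)), R * (prob p fun S => cnt (fam t 𝒯) S ≠ 0) <
      prob p fun S => cnt (fam t 𝒯) S = 1 + s := by
    by_contra hc
    push Not at hc
    apply absurd hkey
    rw [not_lt]
    have h2 : ex θ (fun _ : Finset (Finset (Fin N)) => (0 : ℝ)) = 0 := by
      unfold ex
      simp
    rw [← h2]
    refine ex_mono hθ0 hθ1 fun 𝒯 => ?_
    have := hc 𝒯
    linarith
  obtain ⟨𝒯, h𝒯⟩ := hex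
  refine ⟨Fin N, inferInstance, fam t 𝒯, empty_notMem_fam ht 𝒯, ?_, h𝒯⟩
  refine (prob_pos_le hp0.le hp1 ht 𝒯).trans ?_
  rw [hcard, div_le_iff₀ (by linarith)]
  have h2 : (N : ℝ) = n + M := by
    rw [hNdef]
    push_cast
    ring
  have h3 : (n : ℝ) = t + s := by
    rw [hn]
    push_cast
    ring
  have h4 : (N : ℝ) * p ≤ m + 1 := by
    have h6 : p * ((n : ℝ) + 1) ≤ 1 := by rw [h3]; exact hp
    rw [h2]
    linarith
  have h5 : δ ^ 2 * t ≤ δ * t := by
    apply mul_le_mul_of_nonneg_right _ (by linarith)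
    rw [sq]
    exact mul_le_of_le_one_left hδ.le hδ1.le
  linarith

end Pool.Agent.N897.Ind
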