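import Pool.Agent.N897.Ind.Up
import Pool.Agent.N897.Ind.Copies
import Pool.Agent.N897.Ind.Single

/-!
# The limit of `ind_*(ℓ, p)` is `1/e` for every `ℓ ≥ 1`
-/

set_option autoImplicit false
set_option linter.unusedSectionVars false

namespace Pool.Agent.N897.Ind

open Finset Filter Topology

variable {p : ℝ}

theorem ind_bdd (h0 : 0 ≤ p) (h1 : p ≤ 1) (ℓ : ℕ) :
    BddAbove {x : ℝ | ∃ (B : Type) (_ : Fintype B) (𝒜 : Finset (Finset B)),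
      ∅ ∉ 𝒜 ∧ x = prob p fun S => cnt 𝒜 S = ℓ} := by
  refine ⟨1, ?_⟩
  rintro x ⟨B, _, 𝒜, _, rfl⟩
  exact prob_le_one h0 h1 _

theorem le_ind (h0 : 0 ≤ p) (h1 : p ≤ 1) {ℓ : ℕ} {B : Type} [Fintype B]
    {𝒜 : Finset (Finset B)} (h : ∅ ∉ 𝒜) : (prob p fun S => cnt 𝒜 S = ℓ) ≤ ind ℓ p :=
  le_csSup (ind_bdd h0 h1 ℓ) ⟨B, inferInstance, 𝒜, h, rfl⟩

theorem ind_le (h0 : 0 < p) (h1 : p < 1) {ℓ : ℕ} (hℓ : 1 ≤ ℓ) : ind ℓ p ≤ bd p := by
  apply csSup_le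
  · exact ⟨_, Empty, inferInstance, ∅, by simp, rfl⟩
  · rintro x ⟨B, _, 𝒜, h, rfl⟩
    exact prob_le h0 h1 𝒜 h ℓ hℓ

theorem one_sub_pow_ge {Q : ℝ} (h1 : Q < 1) {n : ℕ} (hn : (n : ℝ) * Q ≤ 1) :
    Real.exp (-(1 / (1 - Q))) ≤ (1 - Q) ^ n := by
  have hQ : 0 < 1 - Q := by linarith
  have h2 : Real.exp (-(Q / (1 - Q))) ≤ 1 - Q := by
    have h3 : 1 / (1 - Q) ≤ Real.exp (Q / (1 - Q)) := by
      have := Real.add_one_le_exp (Q / (1 - Q))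
      have h4 : Q / (1 - Q) + 1 = 1 / (1 - Q) := by
        field_simp
        ring
      linarith
    rw [Real.exp_neg, inv_le_comm₀ (Real.exp_pos _) hQ, ← one_div]
    exact h3
  calc Real.exp (-(1 / (1 - Q))) ≤ Real.exp (n * (-(Q / (1 - Q)))) := by
        apply Real.exp_le_exp.2
        have : (n : ℝ) * Q / (1 - Q) ≤ 1 / (1 - Q) := div_le_div_of_nonneg_right hn hQ.le
        have h5 : (n : ℝ) * (-(Q / (1 - Q))) = -(n * Q / (1 - Q)) := by ring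
        rw [h5]
        linarith
    _ = Real.exp (-(Q / (1 - Q))) ^ n := Real.exp_nat_mul _ _
    _ ≤ (1 - Q) ^ n := pow_le_pow_left₀ (Real.exp_pos _).le h2 n

theorem lower {ℓ : ℕ} (hℓ : 1 ≤ ℓ) {δ : ℝ} (hδ : 0 < δ) (hδ1 : δ < 1) :
    ∃ p₀ : ℝ, 0 < p₀ ∧ ∀ p, 0 < p → p < p₀ →
      (1 - δ) / (1 + 3 * δ) * Real.exp (-(1 / (1 - δ))) ≤ ind ℓ p := by
  obtain ⟨s, rfl⟩ : ∃ s, ℓ = 1 + s := ⟨ℓ - 1, by omega⟩
  set m : ℕ := ⌈(s : ℝ) ^ 2 / δ⌉₊ + s + 1 with hm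
  set t : ℕ := ⌈4 * ((m : ℝ) + 1) / δ ^ 2⌉₊ + 1 with ht
  have hm2 : (s : ℝ) ^ 2 ≤ δ * m := by
    have h1 := Nat.le_ceil ((s : ℝ) ^ 2 / δ)
    rw [div_le_iff₀ hδ] at h1
    have h2 : (⌈(s : ℝ) ^ 2 / δ⌉₊ : ℝ) ≤ m := by
      exact_mod_cast (by omega : ⌈(s : ℝ) ^ 2 / δ⌉₊ ≤ m)
    nlinarith
  have ht2 : 4 * ((m : ℝ) + 1) ≤ δ ^ 2 * t := by
    have h1 := Nat.le_ceil (4 * ((m : ℝ) + 1) / δ ^ 2)
    rw [div_le_iff₀ (by positivity)] at h1
    have h2 : (⌈4 * ((m : ℝ) + 1) / δ ^ 2⌉₊ : ℝ) ≤ t := by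
      exact_mod_cast (by omega : ⌈4 * ((m : ℝ) + 1) / δ ^ 2⌉₊ ≤ t)
    have h3 : 0 < δ ^ 2 := by positivity
    calc 4 * ((m : ℝ) + 1) ≤ ⌈4 * ((m : ℝ) + 1) / δ ^ 2⌉₊ * δ ^ 2 := h1
      _ ≤ t * δ ^ 2 := mul_le_mul_of_nonneg_right h2 h3.le
      _ = δ ^ 2 * t := mul_comm _ _
  have hden : (0 : ℝ) < (t : ℝ) + s + 1 := by positivity
  refine ⟨1 / ((t : ℝ) + s + 1), by positivity, fun p hp0 hp => ?_⟩
  have hp2 : p * ((t : ℝ) + s + 1) ≤ 1 := by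
    rw [lt_div_iff₀ hden] at hp
    exact hp.le
  have hp1 : p ≤ 1 := by
    have h1 : (1 : ℝ) ≤ (t : ℝ) + s + 1 := by
      have : (0 : ℝ) ≤ (t : ℝ) + s := by positivity
      linarith
    nlinarith
  obtain ⟨B, _, 𝒜, h𝒜, hQδ, hx⟩ := single s m t δ hδ hδ1 (by omega) (by omega) hm2 (by omega)
    ht2 hp0 hp2
  set Q := prob p fun S => cnt 𝒜 S ≠ 0 with hQdef
  set x := prob p fun S => cnt 𝒜 S = 1 + s with hxdef
  set R : ℝ := (1 - δ) / (1 + 3 * δ) with hR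
  have hR0 : 0 < R := by
    rw [hR]
    apply div_pos <;> linarith
  have hQ0' : 0 ≤ Q := prob_nonneg hp0.le hp1 _
  have hxQ : x ≤ Q := prob_mono hp0.le hp1 fun S h => by omega
  have hQ0 : 0 < Q := by
    rcases hQ0'.lt_or_eq with h | h
    · exact h
    · rw [← h, mul_zero] at hx
      linarith
  have hQ1 : Q < 1 := lt_of_le_of_lt hQδ hδ1
  have hy : (prob p fun S => cnt 𝒜 S = 0) = 1 - Q := by
    have := prob_add_not (B := B) (p := p) (fun S => cnt 𝒜 S = 0)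
    rw [hQdef]
    have h2 : (prob p fun S => cnt 𝒜 S ≠ 0) = prob p fun S => ¬ cnt 𝒜 S = 0 := rfl
    rw [h2]
    linarith
  set K : ℕ := ⌈1 / Q⌉₊ with hK
  obtain ⟨C, _, 𝒞, hC, _, hCl⟩ := copies hp0.le hp1 𝒜 h𝒜 hℓ K
  refine le_trans ?_ (le_ind hp0.le hp1 hC)
  refine le_trans ?_ hCl
  rw [hy]
  have hK1 : 1 ≤ (K : ℝ) * Q := by
    have := Nat.le_ceil (1 / Q)
    rw [div_le_iff₀ hQ0] at this
    exact this
  have hKpos : 0 < K := by
    rw [hK, Nat.ceil_pos]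
    positivity
  have hK2 : ((K - 1 : ℕ) : ℝ) * Q ≤ 1 := by
    have h2 := Nat.ceil_lt_add_one (a := 1 / Q) (by positivity)
    rw [← hK] at h2
    have h3 : ((K - 1 : ℕ) : ℝ) = K - 1 := by
      rw [Nat.cast_sub (by omega)]
      simp
    rw [h3]
    have h4 : (K : ℝ) - 1 ≤ 1 / Q := by linarith
    rw [le_div_iff₀ hQ0] at h4
    exact h4
  have h5 : R ≤ K * x := by
    have hKc : (0 : ℝ) ≤ K := Nat.cast_nonneg _
    calc R ≤ R * (K * Q) := by nlinarith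
      _ = K * (R * Q) := by ring
      _ ≤ K * x := mul_le_mul_of_nonneg_left hx.le hKc
  have h6 := one_sub_pow_ge hQ1 hK2
  have h7 : Real.exp (-(1 / (1 - δ))) ≤ Real.exp (-(1 / (1 - Q))) := by
    apply Real.exp_le_exp.2
    have : 1 / (1 - Q) ≤ 1 / (1 - δ) := one_div_le_one_div_of_le (by linarith) (by linarith)
    linarith
  exact mul_le_mul h5 (h7.trans h6) (Real.exp_pos _).le (hR0.le.trans h5)

theorem tendsto_ind {ℓ : ℕ} (hℓ : 1 ≤ ℓ) :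
    Tendsto (fun p => ind ℓ p) (𝓝[>] 0) (𝓝 (Real.exp (-1))) := by
  rw [tendsto_order]
  constructor
  · intro a ha
    have hcont : Tendsto (fun δ : ℝ => (1 - δ) / (1 + 3 * δ) * Real.exp (-(1 / (1 - δ))))
        (𝓝[>] 0) (𝓝 (Real.exp (-1))) := by
      have : ContinuousAt (fun δ : ℝ => (1 - δ) / (1 + 3 * δ) * Real.exp (-(1 / (1 - δ)))) 0 := by
        refine ContinuousAt.mul (ContinuousAt.div (by fun_prop) (by fun_prop) (by norm_num)) ?_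
        refine Real.continuous_exp.continuousAt.comp ?_
        refine ContinuousAt.neg (ContinuousAt.div (by fun_prop) (by fun_prop) (by norm_num))
      have h2 := this.tendsto
      have h3 : (1 - (0 : ℝ)) / (1 + 3 * 0) * Real.exp (-(1 / (1 - 0))) = Real.exp (-1) := by
        norm_num
      rw [h3] at h2
      exact h2.mono_left nhdsWithin_le_nhds
    have h3 := (hcont.eventually (lt_mem_nhds ha)).and
      (Ioo_mem_nhdsGT (show (0 : ℝ) < 1 by norm_num))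
    obtain ⟨δ, h4, h5⟩ := h3.exists
    obtain ⟨p₀, hp₀, h6⟩ := lower hℓ h5.1 h5.2
    filter_upwards [Ioo_mem_nhdsGT hp₀] with p hp
    exact h4.trans_le (h6 p hp.1 hp.2)
  · intro a ha
    have hcont : Tendsto (fun p : ℝ => bd p) (𝓝[>] 0) (𝓝 (Real.exp (-1))) := by
      have : ContinuousAt (fun p : ℝ => bd p) 0 := by
        unfold bd
        exact ContinuousAt.div (by fun_prop) (by fun_prop) (by norm_num)
      have h2 := this.tendsto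
      have h3 : bd 0 = Real.exp (-1) := by
        unfold bd
        norm_num
      rw [h3] at h2
      exact h2.mono_left nhdsWithin_le_nhds
    filter_upwards [hcont.eventually (gt_mem_nhds ha),
      Ioo_mem_nhdsGT (show (0 : ℝ) < 1 by norm_num)] with p h1 h2
    exact (ind_le h2.1 h2.2 hℓ).trans_lt h1

end Pool.Agent.N897.Ind
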