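import Pool.Agent.N897.Ind.Basic

/-!
# The random family
-/

set_option autoImplicit false
set_option linter.unusedSectionVars false

namespace Pool.Agent.N897.Ind

open Finset Filter Topology

variable {B : Type} [Fintype B] {p : ℝ}

/-- the number of members of `𝒯` of size `t` contained in `S` -/
noncomputable def jn (t : ℕ) (𝒯 : Finset (Finset B)) (S : Finset B) : ℕ := by
  classical exact ((powersetCard t S).filter (· ∈ 𝒯)).card

/-- the members of `𝒯` of size `t`, and the sets of size `t + 1` above them -/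
noncomputable def fam (t : ℕ) (𝒯 : Finset (Finset B)) : Finset (Finset B) := by
  classical exact Finset.univ.filter fun A =>
    (A ∈ 𝒯 ∧ A.card = t) ∨ (A.card = t + 1 ∧ ∃ T ∈ 𝒯, T.card = t ∧ T ⊆ A)

theorem mem_fam {t : ℕ} {𝒯 : Finset (Finset B)} {A : Finset B} : A ∈ fam t 𝒯 ↔
    (A ∈ 𝒯 ∧ A.card = t) ∨ (A.card = t + 1 ∧ ∃ T ∈ 𝒯, T.card = t ∧ T ⊆ A) := by
  classical
  unfold fam
  simp

theorem empty_notMem_fam {t : ℕ} (ht : 1 ≤ t) (𝒯 : Finset (Finset B)) : ∅ ∉ fam t 𝒯 := by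
  rw [mem_fam]
  rintro (⟨_, h⟩ | ⟨h, _⟩)
  · rw [Finset.card_empty] at h
    omega
  · rw [Finset.card_empty] at h
    omega

theorem jn_pos_of_cnt {t : ℕ} {𝒯 : Finset (Finset B)} {S : Finset B}
    (h : cnt (fam t 𝒯) S ≠ 0) : 1 ≤ jn t 𝒯 S := by
  classical
  unfold cnt at h
  rw [Ne, Set.ncard_eq_zero (Set.toFinite _), ← Ne, ← Set.nonempty_iff_ne_empty] at h
  obtain ⟨A, hA, hAS⟩ := h
  unfold jn
  rw [Nat.one_le_iff_ne_zero, Ne, Finset.card_eq_zero, ← Ne, ← Finset.nonempty_iff_ne_empty]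
  rcases mem_fam.1 hA with ⟨h1, h2⟩ | ⟨_, T, hT, hTc, hTA⟩
  · exact ⟨A, Finset.mem_filter.2 ⟨Finset.mem_powersetCard.2 ⟨hAS, h2⟩, h1⟩⟩
  · exact ⟨T, Finset.mem_filter.2 ⟨Finset.mem_powersetCard.2 ⟨hTA.trans hAS, hTc⟩, hT⟩⟩

theorem cnt_fam_eq {t s : ℕ} {𝒯 : Finset (Finset B)} {S : Finset B} (hS : S.card = t + s)
    (h : jn t 𝒯 S = 1) : cnt (fam t 𝒯) S = 1 + s := by
  classical
  unfold jn at h
  rw [Finset.card_eq_one] at h
  obtain ⟨T₀, hT₀⟩ := h
  have h1 : ∀ T, T ⊆ S → T.card = t → T ∈ 𝒯 → T = T₀ := by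
    intro T a b c
    have : T ∈ (powersetCard t S).filter (· ∈ 𝒯) :=
      Finset.mem_filter.2 ⟨Finset.mem_powersetCard.2 ⟨a, b⟩, c⟩
    rw [hT₀, Finset.mem_singleton] at this
    exact this
  have h2 : T₀ ∈ (powersetCard t S).filter (· ∈ 𝒯) := by
    rw [hT₀]
    exact Finset.mem_singleton_self _
  rw [Finset.mem_filter, Finset.mem_powersetCard] at h2
  obtain ⟨⟨h3, h4⟩, h5⟩ := h2
  have h6 : {A : Finset B | A ∈ fam t 𝒯 ∧ A ⊆ S} =
      ((insert T₀ ((S \ T₀).image fun w => insert w T₀) : Finset (Finset B)) :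
        Set (Finset B)) := by
    ext A
    rw [Set.mem_ofPred_eq, Finset.mem_coe, Finset.mem_insert, Finset.mem_image, mem_fam]
    constructor
    · rintro ⟨⟨a, b⟩ | ⟨a, T, hT, hTc, hTA⟩, hAS⟩
      · exact Or.inl (h1 A hAS b a)
      · right
        have hT0 := h1 T (hTA.trans hAS) hTc hT
        subst hT0
        have h7 : (A \ T).card = 1 := by
          rw [Finset.card_sdiff_of_subset hTA]
          omega
        obtain ⟨w, hw⟩ := Finset.card_eq_one.1 h7
        have hw' : w ∈ A \ T := by rw [hw]; exact Finset.mem_singleton_self _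
        rw [Finset.mem_sdiff] at hw'
        refine ⟨w, Finset.mem_sdiff.2 ⟨hAS hw'.1, hw'.2⟩, ?_⟩
        rw [Finset.insert_eq, ← hw, Finset.sdiff_union_of_subset hTA]
    · rintro (rfl | ⟨w, hw, rfl⟩)
      · exact ⟨Or.inl ⟨h5, h4⟩, h3⟩
      · rw [Finset.mem_sdiff] at hw
        refine ⟨Or.inr ⟨by rw [Finset.card_insert_of_notMem hw.2, h4], T₀, h5, h4,
          Finset.subset_insert _ _⟩, ?_⟩
        exact Finset.insert_subset hw.1 h3
  unfold cnt
  rw [h6, Set.ncard_coe_finset, Finset.card_insert_of_notMem, Finset.card_image_of_injOn,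
    Finset.card_sdiff_of_subset h3]
  · omega
  · intro w hw w' hw' hww
    have hw1 := (Finset.mem_sdiff.1 (Finset.mem_coe.1 hw)).2
    have : w ∈ insert w' T₀ := by
      have h8 : insert w T₀ = insert w' T₀ := hww
      rw [← h8]
      exact Finset.mem_insert_self _ _
    rcases Finset.mem_insert.1 this with h | h
    · exact h
    · exact absurd h hw1
  · rw [Finset.mem_image]
    rintro ⟨w, hw, hw2⟩
    have := (Finset.mem_sdiff.1 hw).2
    rw [← hw2] at this
    exact this (Finset.mem_insert_self _ _)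

theorem jn_eq (t : ℕ) (𝒯 : Finset (Finset B)) (S : Finset B) :
    (jn t 𝒯 S : ℝ) = ∑ T ∈ powersetCard t S, chi ({T} ⊆ 𝒯) := by
  classical
  unfold jn
  rw [Finset.card_filter]
  push_cast
  refine Finset.sum_congr rfl fun T _ => ?_
  by_cases h : T ∈ 𝒯
  · rw [if_pos h, chi_true (Finset.singleton_subset_iff.2 h)]
  · rw [if_neg h, chi_false (fun h' => h (Finset.singleton_subset_iff.1 h'))]

theorem ex_jn (θ : ℝ) (t : ℕ) (S : Finset B) :
    ex θ (fun 𝒯 : Finset (Finset B) => (jn t 𝒯 S : ℝ)) = S.card.choose t * θ := by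
  simp only [jn_eq]
  rw [ex_sum]
  simp only [ex_sup, Finset.card_singleton, pow_one, Finset.sum_const, nsmul_eq_mul,
    Finset.card_powersetCard]

theorem ex_jn_sq {θ : ℝ} (t : ℕ) (S : Finset B) :
    ex θ (fun 𝒯 : Finset (Finset B) => (jn t 𝒯 S : ℝ) ^ 2) ≤
      S.card.choose t * θ + (S.card.choose t * θ) ^ 2 := by
  classical
  have h1 : ∀ 𝒯 : Finset (Finset B), (jn t 𝒯 S : ℝ) ^ 2 =
      ∑ T ∈ powersetCard t S, ∑ T' ∈ powersetCard t S, chi ({T, T'} ⊆ 𝒯) := by
    intro 𝒯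
    rw [jn_eq, sq, Finset.sum_mul_sum]
    refine Finset.sum_congr rfl fun T _ => Finset.sum_congr rfl fun T' _ => ?_
    by_cases h : T ∈ 𝒯
    · by_cases h' : T' ∈ 𝒯
      · rw [chi_true (Finset.singleton_subset_iff.2 h),
          chi_true (Finset.singleton_subset_iff.2 h'), chi_true, mul_one]
        exact Finset.insert_subset h (Finset.singleton_subset_iff.2 h')
      · rw [chi_false (fun h2 => h' (Finset.singleton_subset_iff.1 h2)), mul_zero, chi_false]
        intro h2
        exact h' (h2 (by simp))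
    · rw [chi_false (fun h2 => h (Finset.singleton_subset_iff.1 h2)), zero_mul, chi_false]
      intro h2
      exact h (h2 (by simp))
  simp only [h1]
  rw [ex_sum]
  simp only [ex_sum, ex_sup]
  have h2 : ∀ T T' : Finset B, θ ^ ({T, T'} : Finset (Finset B)).card ≤
      (if T = T' then θ else 0) + θ ^ 2 := by
    intro T T'
    by_cases h : T = T'
    · subst h
      simp
      positivity
    · rw [Finset.card_pair h, if_neg h, zero_add]
  calc ∑ T ∈ powersetCard t S, ∑ T' ∈ powersetCard t S, θ ^ ({T, T'} : Finset (Finset B)).card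
      ≤ ∑ T ∈ powersetCard t S, ∑ T' ∈ powersetCard t S,
          ((if T = T' then θ else 0) + θ ^ 2) :=
        Finset.sum_le_sum fun T _ => Finset.sum_le_sum fun T' _ => h2 T T'
    _ = ∑ T ∈ powersetCard t S, (θ + S.card.choose t * θ ^ 2) := by
        refine Finset.sum_congr rfl fun T hT => ?_
        rw [Finset.sum_add_distrib, Finset.sum_ite_eq, if_pos hT, Finset.sum_const,
          Finset.card_powersetCard, nsmul_eq_mul]
    _ = S.card.choose t * θ + (S.card.choose t * θ) ^ 2 := by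
        rw [Finset.sum_const, Finset.card_powersetCard, nsmul_eq_mul]
        ring

/-- the expectation over the random family of the probability of exactly one -/
theorem ex_jn_one {θ : ℝ} (h0 : 0 ≤ θ) (h1 : θ ≤ 1) (t : ℕ) (S : Finset B) :
    S.card.choose t * θ - (S.card.choose t * θ) ^ 2 ≤
      ex θ (fun 𝒯 : Finset (Finset B) => chi (jn t 𝒯 S = 1)) := by
  have h2 : ex θ (fun 𝒯 : Finset (Finset B) => 2 * (jn t 𝒯 S : ℝ) - (jn t 𝒯 S : ℝ) ^ 2) ≤
      ex θ (fun 𝒯 : Finset (Finset B) => chi (jn t 𝒯 S = 1)) := by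
    refine ex_mono h0 h1 fun 𝒯 => ?_
    generalize jn t 𝒯 S = j
    by_cases h : j = 1
    · subst h
      rw [chi_true rfl]
      norm_num
    · rw [chi_false h]
      rcases Nat.eq_zero_or_pos j with rfl | hj
      · norm_num
      · have : (2 : ℝ) ≤ j := by exact_mod_cast (by omega : 2 ≤ j)
        nlinarith
  rw [ex_sub, ex_const_mul, ex_jn] at h2
  have h3 := ex_jn_sq (θ := θ) t S
  linarith

theorem ex_jn_pos {θ : ℝ} (h0 : 0 ≤ θ) (h1 : θ ≤ 1) (t : ℕ) (S : Finset B) :
    ex θ (fun 𝒯 : Finset (Finset B) => chi (1 ≤ jn t 𝒯 S)) ≤ S.card.choose t * θ := by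
  rw [← ex_jn]
  refine ex_mono h0 h1 fun 𝒯 => ?_
  generalize jn t 𝒯 S = j
  by_cases h : 1 ≤ j
  · rw [chi_true h]
    exact_mod_cast h
  · rw [chi_false h]
    exact Nat.cast_nonneg _

theorem ex_comm (θ : ℝ) (G : Finset (Finset B) → Finset B → ℝ) :
    ex θ (fun 𝒯 : Finset (Finset B) => ex p (G 𝒯)) =
      ex p (fun S => ex θ (fun 𝒯 : Finset (Finset B) => G 𝒯 S)) := by
  unfold ex
  simp only [Finset.mul_sum]
  rw [Finset.sum_comm]
  refine Finset.sum_congr rfl fun S _ => Finset.sum_congr rfl fun 𝒯 _ => ?_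
  ring

theorem exp_card : ex p (fun S : Finset B => (S.card : ℝ)) = Fintype.card B * p := by
  classical
  have : ∀ S : Finset B, (S.card : ℝ) = ∑ b : B, chi ({b} ⊆ S) := by
    intro S
    have h1 : ∀ b : B, chi ({b} ⊆ S) = if b ∈ S then 1 else 0 := by
      intro b
      by_cases h : b ∈ S
      · rw [if_pos h, chi_true (Finset.singleton_subset_iff.2 h)]
      · rw [if_neg h, chi_false (fun h' => h (Finset.singleton_subset_iff.1 h'))]
    rw [Finset.sum_congr rfl fun b _ => h1 b]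
    simp
  simp only [this]
  rw [ex_sum]
  simp only [ex_sup, Finset.card_singleton, pow_one, Finset.sum_const, nsmul_eq_mul,
    Finset.card_univ]

end Pool.Agent.N897.Ind
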