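import Pool.Agent.N897.Ind.Basic

/-!
# The upper bound `1/e` (Fox, Kwan and Sauermann), by induction and the LYM inequality
-/

set_option autoImplicit false

namespace Pool.Agent.N897.Ind

open Finset Filter Topology

variable {B : Type} [Fintype B] {p : ℝ}

/-- the bound -/
noncomputable def bd (p : ℝ) : ℝ := Real.exp (-1) / (1 - p)

theorem bin_one_le (h0 : 0 < p) (h1 : p < 1) (n : ℕ) : bin p n 1 ≤ bd p := by
  unfold bin bd
  rcases Nat.eq_zero_or_pos n with rfl | hn
  · simp
    positivity
  · rw [le_div_iff₀ (by linarith), Nat.choose_one_right, pow_one]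
    have h2 : (1 - p) ^ (n - 1) * (1 - p) = (1 - p) ^ n := by
      rw [← pow_succ]
      congr 1
      omega
    have h3 : (1 - p) ^ n ≤ Real.exp (-(n * p)) := by
      have : 1 - p ≤ Real.exp (-p) := Real.one_sub_le_exp_neg p
      calc (1 - p) ^ n ≤ (Real.exp (-p)) ^ n := pow_le_pow_left₀ (by linarith) this n
        _ = Real.exp (-(n * p)) := by
            rw [← Real.exp_nat_mul]
            ring_nf
    have h4 : (n * p : ℝ) * Real.exp (-(n * p)) ≤ Real.exp (-1) := by
      have h5 : (n * p : ℝ) ≤ Real.exp (n * p - 1) := by
        have := Real.add_one_le_exp ((n : ℝ) * p - 1)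
        linarith
      calc (n * p : ℝ) * Real.exp (-(n * p)) ≤ Real.exp (n * p - 1) * Real.exp (-(n * p)) :=
            mul_le_mul_of_nonneg_right h5 (Real.exp_pos _).le
        _ = Real.exp (-1) := by
            rw [← Real.exp_add]
            ring_nf
    calc (n : ℝ) * p * (1 - p) ^ (n - 1) * (1 - p) = n * p * ((1 - p) ^ (n - 1) * (1 - p)) := by
          ring
      _ = n * p * (1 - p) ^ n := by rw [h2]
      _ ≤ n * p * Real.exp (-(n * p)) := by
          apply mul_le_mul_of_nonneg_left h3
          positivity
      _ ≤ Real.exp (-1) := h4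

theorem bd_pos (h1 : p < 1) : 0 < bd p := by
  unfold bd
  have := Real.exp_pos (-1)
  have : 0 < 1 - p := by linarith
  positivity

theorem bin_le (h0 : 0 < p) (h1 : p < 1) (n : ℕ) : ∀ k, 1 ≤ k → bin p n k ≤ bd p := by
  induction n with
  | zero =>
    intro k hk
    obtain ⟨k, rfl⟩ : ∃ k', k = k' + 1 := ⟨k - 1, by omega⟩
    unfold bin
    simp
    exact (bd_pos h1).le
  | succ n ih =>
    intro k hk
    rcases hk.eq_or_lt with rfl | hk1
    · exact bin_one_le h0 h1 _
    · obtain ⟨k, rfl⟩ : ∃ k', k = k' + 1 := ⟨k - 1, by omega⟩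
      have h2 : bin p (n + 1) (k + 1) = p * bin p n k + (1 - p) * bin p n (k + 1) := by
        unfold bin
        rw [Nat.choose_succ_succ, show n + 1 - (k + 1) = n - k by omega]
        rcases Nat.lt_or_ge k n with h | h
        · rw [show n - k = n - (k + 1) + 1 by omega]
          push_cast
          ring
        · rw [Nat.choose_eq_zero_of_lt (by omega : n < k + 1)]
          push_cast
          ring
      rw [h2]
      have h3 := ih k (by omega)
      have h4 := ih (k + 1) (by omega)
      nlinarith

theorem cnt_mono (𝒜 : Finset (Finset B)) {S T : Finset B} (h : S ⊆ T) : cnt 𝒜 S ≤ cnt 𝒜 T := by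
  unfold cnt
  exact Set.ncard_le_ncard (fun A hA => ⟨hA.1, hA.2.trans h⟩) (Set.toFinite _)

/-- antichains -/
theorem antichain_le (h0 : 0 < p) (h1 : p < 1) (F : Finset (Finset B))
    (hF : IsAntichain (· ⊆ ·) (F : Set (Finset B))) (he : ∅ ∉ F) :
    ∑ S ∈ F, wt p S ≤ bd p := by
  classical
  have hb := bd_pos (p := p) h1
  calc ∑ S ∈ F, wt p S ≤ ∑ S ∈ F, bd p * ((Fintype.card B).choose S.card : ℝ)⁻¹ := by
        refine Finset.sum_le_sum fun S hS => ?_
        have hS1 : 1 ≤ S.card := by
          rw [Nat.one_le_iff_ne_zero, Ne, Finset.card_eq_zero]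
          rintro rfl
          exact he hS
        have h2 := bin_le h0 h1 (Fintype.card B) S.card hS1
        have h3 : (0 : ℝ) < (Fintype.card B).choose S.card := by
          exact_mod_cast Nat.choose_pos (Finset.card_le_univ S)
        rw [← div_eq_mul_inv, le_div_iff₀ h3]
        unfold bin at h2
        unfold wt
        linarith
    _ = bd p * ∑ S ∈ F, ((Fintype.card B).choose S.card : ℝ)⁻¹ := by rw [Finset.mul_sum]
    _ ≤ bd p * 1 := by
        apply mul_le_mul_of_nonneg_left _ hb.le
        exact lubell_yamamoto_meshalkin_inequality_sum_inv_choose hF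
    _ = bd p := mul_one _

/-- partial sums, over the subsets of `V` -/
noncomputable def pv (p : ℝ) (𝒜 : Finset (Finset B)) (ℓ : ℕ) (V R : Finset B) : ℝ := by
  classical exact
    ∑ S ∈ V.powerset, p ^ S.card * (1 - p) ^ (V.card - S.card) * chi (cnt 𝒜 (R ∪ S) = ℓ)

theorem pv_le (h0 : 0 < p) (h1 : p < 1) (𝒜 : Finset (Finset B)) (ℓ : ℕ) :
    ∀ (n : ℕ) (V R : Finset B), V.card = n → cnt 𝒜 R < ℓ → pv p 𝒜 ℓ V R ≤ bd p := by
  classical
  intro n
  induction n with
  | zero =>
    intro V R hV hR
    rw [Finset.card_eq_zero] at hV
    subst hV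
    unfold pv
    simp only [Finset.powerset_empty, Finset.sum_singleton, Finset.union_empty]
    rw [chi_false (by omega), mul_zero]
    exact (bd_pos h1).le
  | succ n ih =>
    intro V R hV hR
    by_cases hb : ∃ b ∈ V, cnt 𝒜 (insert b R) = cnt 𝒜 R
    · obtain ⟨b, hbV, hb⟩ := hb
      have hV' : (V.erase b).card = n := by rw [Finset.card_erase_of_mem hbV, hV]; rfl
      have e1 : V = insert b (V.erase b) := (Finset.insert_erase hbV).symm
      have h2 := ih (V.erase b) R hV' hR
      have h3 := ih (V.erase b) (insert b R) hV' (by omega)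
      have key : pv p 𝒜 ℓ V R = (1 - p) * pv p 𝒜 ℓ (V.erase b) R +
          p * pv p 𝒜 ℓ (V.erase b) (insert b R) := by
        unfold pv
        conv_lhs => rw [e1]
        rw [Finset.sum_powerset_insert (Finset.notMem_erase b V), Finset.mul_sum,
          Finset.mul_sum]
        congr 1
        · refine Finset.sum_congr rfl fun S hS => ?_
          rw [Finset.mem_powerset] at hS
          have := Finset.card_le_card hS
          rw [Finset.card_insert_of_notMem (Finset.notMem_erase b V),
            show (V.erase b).card + 1 - S.card = (V.erase b).card - S.card + 1 by omega]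
          ring
        · refine Finset.sum_congr rfl fun S hS => ?_
          rw [Finset.mem_powerset] at hS
          have hbS : b ∉ S := fun h => Finset.notMem_erase b V (hS h)
          rw [Finset.card_insert_of_notMem hbS,
            Finset.card_insert_of_notMem (Finset.notMem_erase b V),
            show (V.erase b).card + 1 - (S.card + 1) = (V.erase b).card - S.card by omega,
            Finset.union_insert, Finset.insert_union]
          ring
      rw [key]
      nlinarith
    · push Not at hb
      -- strictly increasing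
      have hlt : ∀ S T : Finset B, S ⊂ T → T ⊆ V → cnt 𝒜 (R ∪ S) < cnt 𝒜 (R ∪ T) := by
        intro S T hST hTV
        obtain ⟨b, hbT, hbS⟩ := Finset.exists_of_ssubset hST
        have hne := hb b (hTV hbT)
        have hlt' : cnt 𝒜 R < cnt 𝒜 (insert b R) :=
          lt_of_le_of_ne (cnt_mono 𝒜 (Finset.subset_insert b R)) (Ne.symm hne)
        have hbR : b ∉ R := by
          intro h
          rw [Finset.insert_eq_of_mem h] at hne
          exact hne rfl
        have : ∃ A ∈ 𝒜, A ⊆ insert b R ∧ ¬ A ⊆ R := by
          by_contra hc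
          push Not at hc
          apply absurd hlt'
          rw [not_lt]
          unfold cnt
          exact Set.ncard_le_ncard (fun A hA => ⟨hA.1, hc A hA.1 hA.2⟩) (Set.toFinite _)
        obtain ⟨A, hA, hA1, hA2⟩ := this
        have hbA : b ∈ A := by
          by_contra hbA
          apply hA2
          intro x hx
          rcases Finset.mem_insert.1 (hA1 hx) with rfl | h
          · exact absurd hx hbA
          · exact h
        unfold cnt
        apply Set.ncard_lt_ncard _ (Set.toFinite _)
        have hss : {A : Finset B | A ∈ 𝒜 ∧ A ⊆ R ∪ S} ⊆ {A : Finset B | A ∈ 𝒜 ∧ A ⊆ R ∪ T} :=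
          fun A' hA' => ⟨hA'.1, hA'.2.trans (Finset.union_subset_union_right hST.1)⟩
        rw [Set.ssubset_iff_of_subset hss]
        refine ⟨A, ⟨hA, ?_⟩, ?_⟩
        · intro x hx
          rcases Finset.mem_insert.1 (hA1 hx) with rfl | h
          · exact Finset.mem_union_right _ hbT
          · exact Finset.mem_union_left _ h
        · rintro ⟨_, h⟩
          rcases Finset.mem_union.1 (h hbA) with h | h
          · exact hbR h
          · exact hbS h
      -- transfer to the subtype
      set e : (V : Type) ↪ B := Function.Embedding.subtype _ with he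
      set F : Finset (Finset V) := Finset.univ.filter fun S => cnt 𝒜 (R ∪ S.map e) = ℓ with hF
      have hsub : ∀ S : Finset V, S.map e ⊆ V := by
        intro S x hx
        obtain ⟨y, _, rfl⟩ := Finset.mem_map.1 hx
        exact y.2
      have hanti : IsAntichain (· ⊆ ·) (F : Set (Finset V)) := by
        intro S hS T hT hne hsubs
        have hS' := (Finset.mem_filter.1 (Finset.mem_coe.1 hS)).2
        have hT' := (Finset.mem_filter.1 (Finset.mem_coe.1 hT)).2
        have h5 : S.map e ⊂ T.map e := by
          rw [Finset.map_ssubset_map]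
          exact lt_of_le_of_ne hsubs hne
        have := hlt _ _ h5 (hsub T)
        omega
      have hempty : ∅ ∉ F := by
        intro h
        have := (Finset.mem_filter.1 h).2
        rw [Finset.map_empty, Finset.union_empty] at this
        omega
      have h6 := antichain_le h0 h1 F hanti hempty
      have h7 : pv p 𝒜 ℓ V R = ∑ S ∈ F, wt p S := by
        unfold pv wt
        rw [hF, Finset.sum_filter]
        symm
        apply Finset.sum_nbij' (i := fun S => S.map e) (j := fun S => S.subtype (· ∈ V))
        · intro S _
          exact Finset.mem_powerset.2 (hsub S)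
        · intro S _
          exact Finset.mem_univ _
        · intro S _
          ext x
          simp [he]
        · intro S hS
          rw [Finset.mem_powerset] at hS
          exact Finset.subtype_map_of_mem fun x hx => hS hx
        · intro S _
          rw [Finset.card_map, Fintype.card_coe]
          by_cases h : cnt 𝒜 (R ∪ S.map e) = ℓ
          · rw [if_pos h, chi_true h, mul_one]
          · rw [if_neg h, chi_false h, mul_zero]
      rw [h7]
      exact h6

theorem prob_le (h0 : 0 < p) (h1 : p < 1) (𝒜 : Finset (Finset B)) (h𝒜 : ∅ ∉ 𝒜) (ℓ : ℕ)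
    (hℓ : 1 ≤ ℓ) : prob p (fun S => cnt 𝒜 S = ℓ) ≤ bd p := by
  classical
  have h2 : cnt 𝒜 ∅ = 0 := by
    unfold cnt
    rw [Set.ncard_eq_zero (Set.toFinite _)]
    ext A
    simp only [Set.mem_ofPred_eq, Finset.subset_empty, Set.mem_empty_iff_false, iff_false,
      not_and]
    rintro hA rfl
    exact h𝒜 hA
  have h3 := pv_le h0 h1 𝒜 ℓ (Fintype.card B) Finset.univ ∅ Finset.card_univ (by omega)
  rw [prob_eq]
  unfold pv at h3
  unfold ex wt
  simpa using h3

end Pool.Agent.N897.Ind
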